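import Pool.Agent.MP_037fd6_co.Tree

theorem Pool.Agent.MP_037fd6_co.Old.existsInZFC (k : ℕ) :
    ∃ (V : Type) (G : SimpleGraph V),
      IsLeast {κ : Cardinal.{0} | ∃ C : Type, Cardinal.mk C = κ ∧ Nonempty (G.Coloring C)}
        (Cardinal.aleph 1) ∧
      ¬ (completeBipartiteGraph ℕ ℕ).IsContained G ∧
      ∀ r : ℕ, 1 ≤ r → r ≤ k → ¬ (SimpleGraph.cycleGraph (2 * r + 1)).IsContained G :=
  Pool.Agent.MP_037fd6_co.main k
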